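import Pool.Agent.R798.Imb

set_option autoImplicit false

namespace Pool.Agent.Results.MP_440a65_co.ImbalanceGraphic

open Classical in
/-- The imbalance `|deg u - deg v|` of the edge `uv` of a finite graph. -/
noncomputable def imb {V : Type} [Fintype V] (G : SimpleGraph V) : Sym2 V → ℕ :=
  Sym2.lift ⟨fun u v => ((G.degree u : ℤ) - (G.degree v : ℤ)).natAbs, fun u v => by
    show ((G.degree u : ℤ) - (G.degree v : ℤ)).natAbs = ((G.degree v : ℤ) - (G.degree u : ℤ)).natAbs
    rw [← Int.natAbs_neg]
    congr 1
    ring⟩

open Classical in
/-- The multiset of the imbalances of the edges of a finite graph. -/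
noncomputable def imbMultiset {V : Type} [Fintype V] (G : SimpleGraph V) : Multiset ℕ :=
  G.edgeFinset.val.map (imb G)

open Classical in
/-- A multiset of natural numbers is graphic if it is the multiset of the vertex degrees of a
finite simple graph. -/
def IsGraphic (M : Multiset ℕ) : Prop :=
  ∃ (n : ℕ) (H : SimpleGraph (Fin n)), (Finset.univ : Finset (Fin n)).val.map (fun v => H.degree v) = M

/-- If every edge of a finite simple graph joins two vertices of different degrees, then the
multiset of the imbalances of the edges is graphic. -/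
theorem result {V : Type} [Fintype V] (G : SimpleGraph V)
    (h : ∀ e ∈ G.edgeSet, 0 < imb G e) : IsGraphic (imbMultiset G) := by
  classical
  have hw : ∀ e, imb G e = Pool.Agent.R798.Imb.w G e := by
    intro e
    induction e using Sym2.ind with
    | _ a c =>
      rw [Pool.Agent.R798.Imb.w_mk]
      show ((G.degree a : ℤ) - (G.degree c : ℤ)).natAbs = _
      congr!
  obtain ⟨n, H, hH⟩ := Pool.Agent.R798.Imb.main (G := G) (fun f hf => by
    rw [← hw]
    exact h f (SimpleGraph.mem_edgeFinset.1 hf))
  refine ⟨n, H, ?_⟩
  unfold imbMultiset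
  have e1 : imb G = Pool.Agent.R798.Imb.w G := funext hw
  rw [e1]
  have e2 : (Finset.univ : Finset (Fin n)).val.map (fun v => H.degree v) =
      (Finset.univ : Finset (Fin n)).val.map (fun i => Pool.Agent.R798.EGdeg.dg H i) := by
    apply Multiset.map_congr rfl
    intro i _
    unfold Pool.Agent.R798.EGdeg.dg
    rw [← SimpleGraph.card_neighborFinset_eq_degree]
    congr 1
    ext u
    rw [Pool.Agent.R798.EGdeg.mem_nbr, SimpleGraph.mem_neighborFinset]
  rw [e2, hH]

end Pool.Agent.Results.MP_440a65_co.ImbalanceGraphic
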